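import Pool.Agent.MP_cbbafe_pr.Defs

-- part MP_cbbafe_pr.Step
section

open MeasureTheory ProbabilityTheory

namespace Pool.Agent.MP_cbbafe_pr

/-- prepend a toss -/
def consSeq (a : Bool) (X : ℕ → Bool) : ℕ → Bool
  | 0 => a
  | n + 1 => X n

theorem measurable_consSeq (a : Bool) : Measurable (consSeq a) := by
  refine measurable_pi_lambda _ fun n => ?_
  cases n with
  | zero => exact measurable_const
  | succ n => exact measurable_pi_apply n

instance (p : ℝ) : IsProbabilityMeasure (tosses p) := by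
  unfold tosses
  infer_instance

theorem tosses_eq (p : ℝ) : tosses p =
    unitInterval.toNNReal (Set.projIcc 0 1 zero_le_one p) • (tosses p).map (consSeq true) +
    unitInterval.toNNReal (unitInterval.symm (Set.projIcc 0 1 zero_le_one p)) •
      (tosses p).map (consSeq false) := by
  classical
  symm
  conv_rhs => unfold tosses
  set P : unitInterval := Set.projIcc 0 1 zero_le_one p with hP
  apply Measure.eq_infinitePi
  intro s t ht
  have hmeas : MeasurableSet (Set.pi (s : Set ℕ) t) :=
    MeasurableSet.pi s.countable_toSet fun i _ => ht i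
  set s' : Finset ℕ := s.preimage Nat.succ Nat.succ_injective.injOn with hs'
  have key : ∀ a : Bool, (tosses p).map (consSeq a) (Set.pi (s : Set ℕ) t) =
      (if 0 ∈ s then Measure.dirac a (t 0) else 1) *
        ∏ i ∈ s', bernoulliMeasure true false P (t (i + 1)) := by
    intro a
    rw [Measure.map_apply (measurable_consSeq a) hmeas]
    by_cases h : 0 ∈ s → a ∈ t 0
    · have : consSeq a ⁻¹' Set.pi (s : Set ℕ) t = Set.pi (s' : Set ℕ) fun i => t (i + 1) := by
        ext X
        simp only [Set.mem_preimage, Set.mem_pi, Finset.mem_coe, hs', Finset.mem_preimage]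
        constructor
        · intro H i hi
          exact H (i + 1) hi
        · intro H i hi
          cases i with
          | zero => exact h hi
          | succ i => exact H i hi
      rw [this]
      unfold tosses
      rw [Measure.infinitePi_pi _ fun i _ => ht _]
      split_ifs with h0
      · rw [Measure.dirac_apply_of_mem (h h0), one_mul]
      · rw [one_mul]
    · push Not at h
      have : consSeq a ⁻¹' Set.pi (s : Set ℕ) t = ∅ := by
        ext X
        simp only [Set.mem_preimage, Set.mem_pi, Finset.mem_coe, Set.mem_empty_iff_false,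
          iff_false]
        intro H
        exact h.2 (H 0 h.1)
      rw [this, if_pos h.1, Measure.dirac_apply' _ (ht 0), Set.indicator_of_notMem h.2]
      simp
  have hprod : ∏ i ∈ s, bernoulliMeasure true false P (t i) =
      (if 0 ∈ s then bernoulliMeasure true false P (t 0) else 1) *
        ∏ i ∈ s', bernoulliMeasure true false P (t (i + 1)) := by
    have h1 : ∏ i ∈ s', bernoulliMeasure true false P (t (i + 1)) =
        ∏ i ∈ s.erase 0, bernoulliMeasure true false P (t i) := by
      refine Finset.prod_bij (fun i _ => i + 1) ?_ ?_ ?_ ?_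
      · intro i hi
        simpa [hs'] using hi
      · intro i _ j _ h
        simpa using h
      · intro j hj
        obtain ⟨h0, hj⟩ := Finset.mem_erase.1 hj
        obtain ⟨i, rfl⟩ := Nat.exists_eq_succ_of_ne_zero h0
        exact ⟨i, by simpa [hs'] using hj, rfl⟩
      · intro i _
        rfl
    rw [h1]
    split_ifs with h0
    · rw [Finset.mul_prod_erase _ (fun i => bernoulliMeasure true false P (t i)) h0]
    · rw [Finset.erase_eq_of_notMem h0, one_mul]
  rw [Measure.add_apply, Measure.smul_apply, Measure.smul_apply, key, key, hprod]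
  simp only [ENNReal.smul_def, smul_eq_mul, ← mul_assoc, ← add_mul]
  congr 1
  split_ifs with h0
  · rw [bernoulliMeasure_def, Measure.add_apply, Measure.smul_apply, Measure.smul_apply]
    rfl
  · rw [mul_one, mul_one, ← ENNReal.coe_add]
    simp

theorem step_real {p : ℝ} (hp0 : 0 ≤ p) (hp1 : p ≤ 1) {S : Set ((ℕ → Bool) × (ℕ → Bool))}
    (hS : MeasurableSet S) :
    ((tosses p).prod (tosses p)).real S =
      p * p * ((tosses p).prod (tosses p)).real (Prod.map (consSeq true) (consSeq true) ⁻¹' S) +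
      p * (1 - p) *
        ((tosses p).prod (tosses p)).real (Prod.map (consSeq true) (consSeq false) ⁻¹' S) +
      (1 - p) * p *
        ((tosses p).prod (tosses p)).real (Prod.map (consSeq false) (consSeq true) ⁻¹' S) +
      (1 - p) * (1 - p) *
        ((tosses p).prod (tosses p)).real (Prod.map (consSeq false) (consSeq false) ⁻¹' S) := by
  have hm : ∀ a b, ((tosses p).prod (tosses p)).real (Prod.map (consSeq a) (consSeq b) ⁻¹' S) =
      (((tosses p).map (consSeq a)).prod ((tosses p).map (consSeq b))).real S := by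
    intro a b
    rw [Measure.map_prod_map _ _ (measurable_consSeq a) (measurable_consSeq b),
      map_measureReal_apply ((measurable_consSeq a).prodMap (measurable_consSeq b)) hS]
  simp only [hm]
  have hP : ((Set.projIcc 0 1 zero_le_one p : unitInterval) : ℝ) = p := by
    rw [Set.projIcc_of_mem _ ⟨hp0, hp1⟩]
  have h1 : ((unitInterval.toNNReal (Set.projIcc 0 1 zero_le_one p) : NNReal) : ℝ) = p := hP
  have h2 : ((unitInterval.toNNReal (unitInterval.symm (Set.projIcc 0 1 zero_le_one p)) :
      NNReal) : ℝ) = 1 - p := by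
    conv_rhs => rw [← hP]
    rfl
  conv_lhs => rw [tosses_eq p]
  simp only [Measure.add_prod, Measure.prod_add, Measure.prod_smul_left, Measure.prod_smul_right]
  rw [measureReal_add_apply, measureReal_nnreal_smul_apply, measureReal_nnreal_smul_apply,
    measureReal_add_apply, measureReal_add_apply]
  simp only [measureReal_nnreal_smul_apply, h1, h2]
  ring

end Pool.Agent.MP_cbbafe_pr

end

-- part MP_cbbafe_pr.Race
section

open MeasureTheory ProbabilityTheory

namespace Pool.Agent.MP_cbbafe_pr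

/-- waiting time after the word `u` has been read -/
noncomputable def wt (T u : List Bool) (X : ℕ → Bool) : ℕ∞ :=
  ⨅ (n : ℕ) (_ : T <:+ u ++ List.ofFn fun i : Fin n => X i), (n : ℕ∞)

theorem wt_nil (T : List Bool) : wt T [] = waitingTime T := rfl

theorem borelSpace_enat : BorelSpace ℕ∞ := ⟨(borel_eq_top_of_countable (α := ℕ∞)).symm⟩

theorem measurable_wt (T u : List Bool) : Measurable (wt T u) := by
  classical
  have := borelSpace_enat
  have : wt T u = fun X => ⨅ n : ℕ,
      if T <:+ u ++ List.ofFn fun i : Fin n => X i then (n : ℕ∞) else ⊤ := by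
    funext X
    unfold wt
    congr 1
    funext n
    rw [iInf_eq_if]
  rw [this]
  refine Measurable.iInf fun n => Measurable.ite ?_ measurable_const measurable_const
  have h1 : Measurable fun (X : ℕ → Bool) (i : Fin n) => X i :=
    measurable_pi_lambda _ fun i => measurable_pi_apply _
  exact h1 (t := {f : Fin n → Bool | T <:+ u ++ List.ofFn f}) (Set.toFinite _).measurableSet

theorem wt_of_suffix {T u : List Bool} (h : T <:+ u) (X : ℕ → Bool) : wt T u X = 0 := by
  apply le_antisymm _ (zero_le)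
  exact iInf₂_le_of_le 0 (by simpa using h) le_rfl

theorem wt_cons {T u : List Bool} (h : ¬ T <:+ u) (a : Bool) (X : ℕ → Bool) :
    wt T u (consSeq a X) = 1 + wt T (u ++ [a]) X := by
  unfold wt
  rw [← inf_iInf_nat_succ, iInf_neg (by simpa using h), top_inf_eq, ENat.add_iInf]
  congr 1
  funext n
  have : (u ++ List.ofFn fun i : Fin (n + 1) => consSeq a X i) =
      u ++ [a] ++ List.ofFn fun i : Fin n => X i := by
    rw [List.ofFn_succ]
    simp [consSeq]
  rw [this]
  by_cases hP : T <:+ u ++ [a] ++ List.ofFn fun i : Fin n => X i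
  · rw [iInf_pos hP, iInf_pos hP]
    push_cast
    ring
  · rw [iInf_neg hP, iInf_neg hP]
    simp

theorem wt_pos {T u : List Bool} (h : ¬ T <:+ u) (X : ℕ → Bool) : 0 < wt T u X := by
  have : X = consSeq (X 0) fun n => X (n + 1) := by
    funext n
    cases n <;> rfl
  rw [this, wt_cons h]
  exact lt_of_lt_of_le zero_lt_one le_self_add

theorem wt_congr {T u v : List Bool}
    (h : ∀ n : Fin T.length, ∀ f : Fin n → Bool,
      (T <:+ u ++ List.ofFn f ↔ T <:+ v ++ List.ofFn f)) : wt T u = wt T v := by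
  funext X
  unfold wt
  congr 1
  funext n
  have : (T <:+ u ++ List.ofFn fun i : Fin n => X i) ↔
      (T <:+ v ++ List.ofFn fun i : Fin n => X i) := by
    by_cases hn : n < T.length
    · exact h ⟨n, hn⟩ _
    · have key : ∀ w : List Bool, (T <:+ w ++ List.ofFn fun i : Fin n => X i) ↔
          T <:+ List.ofFn fun i : Fin n => X i := fun w =>
        ⟨fun H => List.suffix_of_suffix_length_le H (List.suffix_append _ _) (by simp; omega),
          fun H => H.trans (List.suffix_append _ _)⟩
      rw [key, key]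
  rw [this]

/-- winning probability from the state `(u, v)` -/
noncomputable def val (T₁ T₂ : List Bool) (p : ℝ) (u v : List Bool) : ℝ :=
  ((tosses p).prod (tosses p)).real {ω | wt T₁ u ω.1 < wt T₂ v ω.2} +
    (1 / 2) * ((tosses p).prod (tosses p)).real {ω | wt T₁ u ω.1 = wt T₂ v ω.2}

theorem val_nil (T₁ T₂ : List Bool) (p : ℝ) : val T₁ T₂ p [] [] = winProb T₁ T₂ p := rfl

variable {T₁ T₂ : List Bool} {p : ℝ} {u v : List Bool}

theorem val_both (h₁ : T₁ <:+ u) (h₂ : T₂ <:+ v) : val T₁ T₂ p u v = 1 / 2 := by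
  simp [val, wt_of_suffix h₁, wt_of_suffix h₂]

theorem val_left (h₁ : T₁ <:+ u) (h₂ : ¬ T₂ <:+ v) : val T₁ T₂ p u v = 1 := by
  have h := wt_pos h₂
  simp [val, wt_of_suffix h₁, h, fun X => (h X).ne]

theorem val_right (h₁ : ¬ T₁ <:+ u) (h₂ : T₂ <:+ v) : val T₁ T₂ p u v = 0 := by
  have h := wt_pos h₁
  simp [val, wt_of_suffix h₂, fun X => (h X).ne']

theorem val_step (hp0 : 0 ≤ p) (hp1 : p ≤ 1) (h₁ : ¬ T₁ <:+ u) (h₂ : ¬ T₂ <:+ v) :
    val T₁ T₂ p u v =
      p * p * val T₁ T₂ p (u ++ [true]) (v ++ [true]) +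
      p * (1 - p) * val T₁ T₂ p (u ++ [true]) (v ++ [false]) +
      (1 - p) * p * val T₁ T₂ p (u ++ [false]) (v ++ [true]) +
      (1 - p) * (1 - p) * val T₁ T₂ p (u ++ [false]) (v ++ [false]) := by
  have := borelSpace_enat
  have m1 : MeasurableSet {ω : (ℕ → Bool) × (ℕ → Bool) | wt T₁ u ω.1 < wt T₂ v ω.2} :=
    measurableSet_lt ((measurable_wt _ _).comp measurable_fst)
      ((measurable_wt _ _).comp measurable_snd)
  have m2 : MeasurableSet {ω : (ℕ → Bool) × (ℕ → Bool) | wt T₁ u ω.1 = wt T₂ v ω.2} :=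
    measurableSet_eq_fun ((measurable_wt _ _).comp measurable_fst)
      ((measurable_wt _ _).comp measurable_snd)
  have e1 : ∀ a b, Prod.map (consSeq a) (consSeq b) ⁻¹'
      {ω : (ℕ → Bool) × (ℕ → Bool) | wt T₁ u ω.1 < wt T₂ v ω.2} =
      {ω | wt T₁ (u ++ [a]) ω.1 < wt T₂ (v ++ [b]) ω.2} := by
    intro a b
    ext ω
    simp only [Set.mem_preimage, Set.mem_ofPred_eq, Prod.map_fst, Prod.map_snd, wt_cons h₁,
      wt_cons h₂]
    exact ENat.add_lt_add_iff_left (by simp)
  have e2 : ∀ a b, Prod.map (consSeq a) (consSeq b) ⁻¹'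
      {ω : (ℕ → Bool) × (ℕ → Bool) | wt T₁ u ω.1 = wt T₂ v ω.2} =
      {ω | wt T₁ (u ++ [a]) ω.1 = wt T₂ (v ++ [b]) ω.2} := by
    intro a b
    ext ω
    simp only [Set.mem_preimage, Set.mem_ofPred_eq, Prod.map_fst, Prod.map_snd, wt_cons h₁,
      wt_cons h₂]
    exact (ENat.add_right_injective_of_ne_top (by simp)).eq_iff
  unfold val
  rw [step_real hp0 hp1 m1, step_real hp0 hp1 m2]
  simp only [e1, e2]
  ring

theorem val_congr_left {u' : List Bool} (h : wt T₁ u = wt T₁ u') (v : List Bool) :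
    val T₁ T₂ p u v = val T₁ T₂ p u' v := by
  unfold val
  rw [h]

theorem val_congr_right {v' : List Bool} (h : wt T₂ v = wt T₂ v') (u : List Bool) :
    val T₁ T₂ p u v = val T₁ T₂ p u v' := by
  unfold val
  rw [h]

/-- numerator -/
noncomputable def numer (p : ℝ) : ℝ :=
  1 - 3 / 2 * p ^ 2 + 6 * p ^ 3 - 21 / 2 * p ^ 4 + 9 * p ^ 5 - 3 * p ^ 6 + 1 / 2 * p ^ 7 -
    7 / 2 * p ^ 8 + 21 / 2 * p ^ 9 - 35 / 2 * p ^ 10 + 35 / 2 * p ^ 11 - 21 / 2 * p ^ 12 +
    7 / 2 * p ^ 13 - 1 / 2 * p ^ 14

/-- denominator -/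
def denom (p : ℝ) : ℝ := (1 + p ^ 6 * (1 - p)) * (1 + p * (1 - p) ^ 6)

theorem denom_pos (hp0 : 0 ≤ p) (hp1 : p ≤ 1) : 0 < denom p := by
  have : 0 ≤ 1 - p := by linarith
  unfold denom
  positivity

theorem winProb_eq (hp0 : 0 < p) (hp1 : p < 1) :
    winProb [true, false] [true, true, false, false] p = numer p / denom p := by
  have a1 : wt [true, false] [false] = wt [true, false] [] := wt_congr (by decide)
  have a2 : wt [true, false] [true, true] = wt [true, false] [true] := wt_congr (by decide)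
  have b1 : wt [true, true, false, false] [false] = wt [true, true, false, false] [] :=
    wt_congr (by decide +kernel)
  have b2 : wt [true, true, false, false] [true, false] = wt [true, true, false, false] [] :=
    wt_congr (by decide +kernel)
  have b3 : wt [true, true, false, false] [true, true, true] =
      wt [true, true, false, false] [true, true] := wt_congr (by decide +kernel)
  have b4 : wt [true, true, false, false] [true, true, false, true] =
      wt [true, true, false, false] [true] := wt_congr (by decide +kernel)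
  have S := fun u v h₁ h₂ => val_step (T₁ := [true, false]) (T₂ := [true, true, false, false])
    (u := u) (v := v) hp0.le hp1.le h₁ h₂
  have E00 := S [] [] (by decide) (by decide)
  have E01 := S [] [true] (by decide) (by decide)
  have E02 := S [] [true, true] (by decide) (by decide)
  have E03 := S [] [true, true, false] (by decide) (by decide)
  have E10 := S [true] [] (by decide) (by decide)
  have E11 := S [true] [true] (by decide) (by decide)
  have E12 := S [true] [true, true] (by decide) (by decide)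
  have E13 := S [true] [true, true, false] (by decide) (by decide)
  simp only [List.nil_append, List.cons_append, val_congr_left a1, val_congr_left a2,
    val_congr_right b1, val_congr_right b2, val_congr_right b3, val_congr_right b4]
    at E00 E01 E02 E03 E10 E11 E12 E13
  have L : ∀ v, ¬ [true, true, false, false] <:+ v →
      val [true, false] [true, true, false, false] p [true, false] v = 1 :=
    fun v h => val_left (by decide) h
  have R : ∀ u, ¬ [true, false] <:+ u →
      val [true, false] [true, true, false, false] p u [true, true, false, false] = 0 :=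
    fun u h => val_right h (by decide)
  have B : val [true, false] [true, true, false, false] p [true, false]
      [true, true, false, false] = 1 / 2 := val_both (by decide) (by decide)
  rw [R _ (by decide), R _ (by decide)] at E03
  rw [L _ (by decide), L _ (by decide)] at E10 E11 E12
  rw [R _ (by decide), L _ (by decide), B] at E13
  rw [← val_nil, eq_div_iff (denom_pos hp0.le hp1.le).ne']
  have hne : p * (1 - p) ≠ 0 := mul_ne_zero hp0.ne' (by linarith)
  apply mul_left_cancel₀ hne
  unfold numer denom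
  linear_combination
    (1 - 2 * p + p ^ 2 + 4 * p ^ 3 - 10 * p ^ 4 + 10 * p ^ 5 - 4 * p ^ 6 - 2 * p ^ 7 + 3 * p ^ 8 +
      3 * p ^ 9 - 14 * p ^ 10 + 20 * p ^ 11 - 15 * p ^ 12 + 6 * p ^ 13 - p ^ 14) * E00 +
    (p - 3 * p ^ 2 + 4 * p ^ 3 - 3 * p ^ 4 + p ^ 5 + p ^ 7 - 4 * p ^ 8 + 7 * p ^ 9 - 7 * p ^ 10 +
      4 * p ^ 11 - p ^ 12) * E01 +
    (p ^ 2 - 3 * p ^ 3 + 3 * p ^ 4 - p ^ 5 + p ^ 8 - 4 * p ^ 9 + 6 * p ^ 10 - 4 * p ^ 11 +
      p ^ 12) * E02 +
    (p ^ 2 - 5 * p ^ 3 + 10 * p ^ 4 - 10 * p ^ 5 + 5 * p ^ 6 - p ^ 7 + p ^ 8 - 6 * p ^ 9 +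
      15 * p ^ 10 - 20 * p ^ 11 + 15 * p ^ 12 - 6 * p ^ 13 + p ^ 14) * E03 +
    (p - p ^ 2 - 2 * p ^ 3 + 7 * p ^ 4 - 10 * p ^ 5 + 4 * p ^ 6 + 5 * p ^ 7 - 6 * p ^ 8 -
      2 * p ^ 9 + 14 * p ^ 10 - 20 * p ^ 11 + 15 * p ^ 12 - 6 * p ^ 13 + p ^ 14) * E10 +
    (p ^ 2 - p ^ 3 + p ^ 4 - 2 * p ^ 5 + 4 * p ^ 6 - 6 * p ^ 7 + 3 * p ^ 8 + 2 * p ^ 9 -
      3 * p ^ 10 + p ^ 11) * E11 +
    (p ^ 3 - p ^ 4 + p ^ 5 - p ^ 7 + 4 * p ^ 8 - 6 * p ^ 9 + 4 * p ^ 10 - p ^ 11) * E12 +
    (p ^ 3 - 3 * p ^ 4 + 4 * p ^ 5 - 2 * p ^ 6 - p ^ 8 + 6 * p ^ 9 - 15 * p ^ 10 + 20 * p ^ 11 -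
      15 * p ^ 12 + 6 * p ^ 13 - p ^ 14) * E13

theorem three_extrema {W : ℝ → ℝ} (hW : ∀ p, 0 < p → p < 1 → W p = numer p / denom p) :
    ∃ a b c : ℝ, 0 < a ∧ a < b ∧ b < c ∧ c < 1 ∧ IsLocalMin W a ∧ IsLocalMax W b ∧
      IsLocalMin W c ∧ W a < W b ∧ W c < W b := by
  have hc : ContinuousOn W (Set.Ioo 0 1) := by
    refine ContinuousOn.congr (f := fun p => numer p / denom p) ?_ fun p hp => hW p hp.1 hp.2
    refine ContinuousOn.div ?_ ?_ fun p hp => (denom_pos hp.1.le hp.2.le).ne'
    · unfold numer; fun_prop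
    · unfold denom; fun_prop
  have v1 : W (1 / 5) < W (1 / 20) := by
    rw [hW _ (by norm_num) (by norm_num), hW _ (by norm_num) (by norm_num)]
    norm_num [numer, denom]
  have v2 : W (1 / 5) < W (1 / 2) := by
    rw [hW _ (by norm_num) (by norm_num), hW _ (by norm_num) (by norm_num)]
    norm_num [numer, denom]
  have v3 : W (4 / 5) < W (1 / 2) := by
    rw [hW _ (by norm_num) (by norm_num), hW _ (by norm_num) (by norm_num)]
    norm_num [numer, denom]
  have v4 : W (4 / 5) < W (19 / 20) := by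
    rw [hW _ (by norm_num) (by norm_num), hW _ (by norm_num) (by norm_num)]
    norm_num [numer, denom]
  have sub : ∀ {s t : ℝ}, 0 < s → t < 1 → ContinuousOn W (Set.Icc s t) := fun hs ht =>
    hc.mono fun x hx => ⟨lt_of_lt_of_le hs hx.1, lt_of_le_of_lt hx.2 ht⟩
  obtain ⟨a, ha, hamin⟩ := (isCompact_Icc (a := (1 / 20 : ℝ)) (b := 1 / 2)).exists_isMinOn
    ⟨1 / 5, by norm_num, by norm_num⟩ (sub (by norm_num) (by norm_num))
  obtain ⟨c, hc', hcmin⟩ := (isCompact_Icc (a := (1 / 2 : ℝ)) (b := 19 / 20)).exists_isMinOn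
    ⟨4 / 5, by norm_num, by norm_num⟩ (sub (by norm_num) (by norm_num))
  have ha1 : W a ≤ W (1 / 5) := hamin ⟨by norm_num, by norm_num⟩
  have hc1 : W c ≤ W (4 / 5) := hcmin ⟨by norm_num, by norm_num⟩
  have ha2 : 1 / 20 < a := lt_of_le_of_ne ha.1 fun h => by rw [← h] at ha1; linarith
  have ha3 : a < 1 / 2 := lt_of_le_of_ne ha.2 fun h => by rw [h] at ha1; linarith
  have hc2 : 1 / 2 < c := lt_of_le_of_ne hc'.1 fun h => by rw [← h] at hc1; linarith
  have hc3 : c < 19 / 20 := lt_of_le_of_ne hc'.2 fun h => by rw [h] at hc1; linarith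
  obtain ⟨b, hb, hbmax⟩ := (isCompact_Icc (a := a) (b := c)).exists_isMaxOn
    ⟨1 / 2, ha3.le, hc2.le⟩ (sub (by linarith) (by linarith))
  have hb1 : W (1 / 2) ≤ W b := hbmax ⟨ha3.le, hc2.le⟩
  have hb2 : a < b := lt_of_le_of_ne hb.1 fun h => by rw [← h] at hb1; linarith
  have hb3 : b < c := lt_of_le_of_ne hb.2 fun h => by rw [h] at hb1; linarith
  exact ⟨a, b, c, by linarith, hb2, hb3, by linarith, hamin.isLocalMin (Icc_mem_nhds ha2 ha3),
    hbmax.isLocalMax (Icc_mem_nhds hb2 hb3), hcmin.isLocalMin (Icc_mem_nhds hc2 hc3),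
    by linarith, by linarith⟩

end Pool.Agent.MP_cbbafe_pr

end
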